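import Mathlib

/-!
# MP_fe8c84_an: the mass equation `m_t + (m_ρ)_+^α m = 0`

Comparison of arbitrary continuous viscosity sub- and supersolutions, hence uniqueness of
viscosity solutions for every continuous datum.
-/

set_option autoImplicit false

open Filter Topology Set

namespace Pool.Agent.Results.MP_fe8c84_an.Comparison

/-- the Fréchet superdifferential `D⁺ f (x)` -/
def superdiff (f : ℝ × ℝ → ℝ) (x : ℝ × ℝ) : Set (ℝ × ℝ) :=
  {p | ∀ ε > 0, ∀ᶠ y in 𝓝 x, f y - f x - (p.1 * (y.1 - x.1) + p.2 * (y.2 - x.2)) ≤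
    ε * √((y.1 - x.1) ^ 2 + (y.2 - x.2) ^ 2)}

/-- the Fréchet subdifferential `D⁻ f (x)` -/
def subdiff (f : ℝ × ℝ → ℝ) (x : ℝ × ℝ) : Set (ℝ × ℝ) :=
  {p | ∀ ε > 0, ∀ᶠ y in 𝓝 x, -(ε * √((y.1 - x.1) ^ 2 + (y.2 - x.2) ^ 2)) ≤
    f y - f x - (p.1 * (y.1 - x.1) + p.2 * (y.2 - x.2))}

/-- viscosity subsolutions of `m_t + (m_ρ)_+^α m = 0`, `m (0, ·) = m₀`, `m (·, 0) = 0` -/
structure IsViscositySubsolution (α : ℝ) (m₀ : ℝ → ℝ) (m : ℝ × ℝ → ℝ) : Prop where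
  continuousOn : ContinuousOn m (Ici 0 ×ˢ Ici 0)
  eq : ∀ t ρ, 0 < t → 0 < ρ → ∀ p ∈ superdiff m (t, ρ), p.1 + (max p.2 0) ^ α * m (t, ρ) ≤ 0
  initial : ∀ ρ, 0 ≤ ρ → m (0, ρ) ≤ m₀ ρ
  boundary : ∀ t, 0 ≤ t → m (t, 0) ≤ 0

/-- viscosity supersolutions -/
structure IsViscositySupersolution (α : ℝ) (m₀ : ℝ → ℝ) (m : ℝ × ℝ → ℝ) : Prop where
  continuousOn : ContinuousOn m (Ici 0 ×ˢ Ici 0)
  eq : ∀ t ρ, 0 < t → 0 < ρ → ∀ p ∈ subdiff m (t, ρ), 0 ≤ p.1 + (max p.2 0) ^ α * m (t, ρ)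
  initial : ∀ ρ, 0 ≤ ρ → m₀ ρ ≤ m (0, ρ)
  boundary : ∀ t, 0 ≤ t → 0 ≤ m (t, 0)

/-- viscosity solutions -/
def IsViscositySolution (α : ℝ) (m₀ : ℝ → ℝ) (m : ℝ × ℝ → ℝ) : Prop :=
  IsViscositySubsolution α m₀ m ∧ IsViscositySupersolution α m₀ m

/-! ### Test functions -/

lemma abs_le_sqrt₁ (a b : ℝ) : |a| ≤ √(a ^ 2 + b ^ 2) := by
  rw [← Real.sqrt_sq_eq_abs]
  exact Real.sqrt_le_sqrt (by nlinarith [sq_nonneg b])

lemma abs_le_sqrt₂ (a b : ℝ) : |b| ≤ √(a ^ 2 + b ^ 2) := by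
  rw [← Real.sqrt_sq_eq_abs]
  exact Real.sqrt_le_sqrt (by nlinarith [sq_nonneg a])

lemma taylor {g₁ g₂ : ℝ → ℝ} {p₁ p₂ : ℝ} {x : ℝ × ℝ} (h₁ : HasDerivAt g₁ p₁ x.1)
    (h₂ : HasDerivAt g₂ p₂ x.2) {ε : ℝ} (hε : 0 < ε) :
    ∀ᶠ y : ℝ × ℝ in 𝓝 x, |g₁ y.1 - g₁ x.1 + (g₂ y.2 - g₂ x.2) -
      (p₁ * (y.1 - x.1) + p₂ * (y.2 - x.2))| ≤ ε * √((y.1 - x.1) ^ 2 + (y.2 - x.2) ^ 2) := by
  have e₁ := (hasDerivAt_iff_isLittleO.1 h₁).def (half_pos hε)
  have e₂ := (hasDerivAt_iff_isLittleO.1 h₂).def (half_pos hε)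
  have f₁ : ∀ᶠ y : ℝ × ℝ in 𝓝 x, ‖g₁ y.1 - g₁ x.1 - (y.1 - x.1) • p₁‖ ≤ ε / 2 * ‖y.1 - x.1‖ :=
    (continuous_fst.tendsto x).eventually e₁
  have f₂ : ∀ᶠ y : ℝ × ℝ in 𝓝 x, ‖g₂ y.2 - g₂ x.2 - (y.2 - x.2) • p₂‖ ≤ ε / 2 * ‖y.2 - x.2‖ :=
    (continuous_snd.tendsto x).eventually e₂
  filter_upwards [f₁, f₂] with y k₁ k₂
  rw [Real.norm_eq_abs, Real.norm_eq_abs, smul_eq_mul] at k₁ k₂
  have s₁ := abs_le_sqrt₁ (y.1 - x.1) (y.2 - x.2)
  have s₂ := abs_le_sqrt₂ (y.1 - x.1) (y.2 - x.2)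
  have := abs_add_le (g₁ y.1 - g₁ x.1 - (y.1 - x.1) * p₁) (g₂ y.2 - g₂ x.2 - (y.2 - x.2) * p₂)
  have e : g₁ y.1 - g₁ x.1 + (g₂ y.2 - g₂ x.2) - (p₁ * (y.1 - x.1) + p₂ * (y.2 - x.2)) =
      g₁ y.1 - g₁ x.1 - (y.1 - x.1) * p₁ + (g₂ y.2 - g₂ x.2 - (y.2 - x.2) * p₂) := by ring
  rw [e]
  nlinarith

lemma mem_superdiff {f : ℝ × ℝ → ℝ} {g₁ g₂ : ℝ → ℝ} {p₁ p₂ : ℝ} {x : ℝ × ℝ}
    (h₁ : HasDerivAt g₁ p₁ x.1) (h₂ : HasDerivAt g₂ p₂ x.2)
    (h : ∀ᶠ y in 𝓝 x, f y - f x ≤ g₁ y.1 - g₁ x.1 + (g₂ y.2 - g₂ x.2)) :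
    (p₁, p₂) ∈ superdiff f x := by
  intro ε hε
  filter_upwards [h, taylor h₁ h₂ hε] with y k₁ k₂
  have := (abs_le.1 k₂).2
  linarith

lemma mem_subdiff {f : ℝ × ℝ → ℝ} {g₁ g₂ : ℝ → ℝ} {p₁ p₂ : ℝ} {x : ℝ × ℝ}
    (h₁ : HasDerivAt g₁ p₁ x.1) (h₂ : HasDerivAt g₂ p₂ x.2)
    (h : ∀ᶠ y in 𝓝 x, g₁ y.1 - g₁ x.1 + (g₂ y.2 - g₂ x.2) ≤ f y - f x) :
    (p₁, p₂) ∈ subdiff f x := by
  intro ε hε
  filter_upwards [h, taylor h₁ h₂ hε] with y k₁ k₂
  have := (abs_le.1 k₂).1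
  linarith

lemma hasDerivAt_penalty (η T t : ℝ) (ht : t < T) :
    HasDerivAt (fun t => η / (T - t)) (η / (T - t) ^ 2) t := by
  have h1 : HasDerivAt (fun t => T - t) (-1) t := (hasDerivAt_id t).const_sub T
  have h2 := (hasDerivAt_const t η).div h1 (by linarith : T - t ≠ 0)
  refine h2.congr_deriv ?_
  ring

/-! ### Supersolutions are nonnegative -/

lemma mem_quadrant {T R : ℝ} {x : ℝ × ℝ} (hx : x ∈ Icc 0 T ×ˢ Icc 0 R) :
    x ∈ (Ici 0 ×ˢ Ici 0 : Set (ℝ × ℝ)) := ⟨hx.1.1, hx.2.1⟩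

lemma eventually_interior {T R : ℝ} {x : ℝ × ℝ} (h1 : 0 < x.1) (h2 : x.1 < T) (h3 : 0 < x.2)
    (h4 : x.2 < R) : ∀ᶠ y in 𝓝 x, 0 < y.1 ∧ y.1 < T ∧ 0 < y.2 ∧ y.2 < R := by
  filter_upwards [(continuous_fst.tendsto x).eventually (lt_mem_nhds h1),
    (continuous_fst.tendsto x).eventually (gt_mem_nhds h2),
    (continuous_snd.tendsto x).eventually (lt_mem_nhds h3),
    (continuous_snd.tendsto x).eventually (gt_mem_nhds h4)] with y a b c d
  exact ⟨a, b, c, d⟩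

lemma nonneg_of_super {α : ℝ} (hα : 0 < α) {m₀ : ℝ → ℝ} (hm₀ : ∀ ρ, 0 ≤ ρ → 0 ≤ m₀ ρ)
    {M : ℝ × ℝ → ℝ} (hM : IsViscositySupersolution α m₀ M) {t₀ ρ₀ : ℝ} (ht₀ : 0 ≤ t₀)
    (hρ₀ : 0 ≤ ρ₀) : 0 ≤ M (t₀, ρ₀) := by
  by_contra hneg
  push Not at hneg
  set T := t₀ + 1 with hT
  set R := ρ₀ + 1 with hR
  set η := -M (t₀, ρ₀) / 4 with hη
  have hη0 : 0 < η := by rw [hη]; linarith
  have hK : IsCompact (Icc 0 T ×ˢ Icc 0 R : Set (ℝ × ℝ)) := isCompact_Icc.prod isCompact_Icc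
  have hMK : ContinuousOn M (Icc 0 T ×ˢ Icc 0 R) := hM.continuousOn.mono fun x hx => mem_quadrant hx
  obtain ⟨C, hC⟩ := hK.exists_bound_of_continuousOn hMK
  have h0K : (t₀, ρ₀) ∈ (Icc 0 T ×ˢ Icc 0 R : Set (ℝ × ℝ)) :=
    ⟨⟨ht₀, by simp [hT]⟩, ⟨hρ₀, by simp [hR]⟩⟩
  have hC0 := hC _ h0K
  rw [Real.norm_eq_abs, abs_of_neg hneg] at hC0
  have hCpos : 0 < C := by linarith
  set κ := η / C with hκ
  have hκ0 : 0 < κ := by positivity
  have hκ1 : κ ≤ 1 := by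
    rw [hκ, div_le_one hCpos]
    linarith
  have hηκ : η = C * κ := by rw [hκ]; field_simp
  set Ψ : ℝ × ℝ → ℝ := fun x => M x + η / (T - x.1) + η / (R - x.2) with hΨ
  have hA : IsCompact (Icc 0 (T - κ) ×ˢ Icc 0 (R - κ) : Set (ℝ × ℝ)) :=
    isCompact_Icc.prod isCompact_Icc
  have hAK : (Icc 0 (T - κ) ×ˢ Icc 0 (R - κ) : Set (ℝ × ℝ)) ⊆ Icc 0 T ×ˢ Icc 0 R := fun x hx =>
    ⟨⟨hx.1.1, by linarith [hx.1.2]⟩, ⟨hx.2.1, by linarith [hx.2.2]⟩⟩
  have h0A : (t₀, ρ₀) ∈ (Icc 0 (T - κ) ×ˢ Icc 0 (R - κ) : Set (ℝ × ℝ)) :=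
    ⟨⟨ht₀, by simp only [hT]; linarith⟩, ⟨hρ₀, by simp only [hR]; linarith⟩⟩
  have hΨc : ContinuousOn Ψ (Icc 0 (T - κ) ×ˢ Icc 0 (R - κ)) := by
    apply ContinuousOn.add
    · apply (hMK.mono hAK).add
      apply continuousOn_const.div (by fun_prop)
      intro x hx
      have := hx.1.2
      linarith
    · apply continuousOn_const.div (by fun_prop)
      intro x hx
      have := hx.2.2
      linarith
  obtain ⟨x, hxA, hx⟩ := hA.exists_isMinOn ⟨_, h0A⟩ hΨc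
  have hΨ0 : Ψ (t₀, ρ₀) < 0 := by
    simp only [hΨ, hT, hR]
    rw [add_sub_cancel_left, add_sub_cancel_left, div_one]
    linarith
  have hΨx : Ψ x < 0 := (hx h0A).trans_lt hΨ0
  have hx1 := hxA.1.2
  have hx2 := hxA.2.2
  have hpos1 : 0 < η / (T - x.1) := div_pos hη0 (by linarith)
  have hpos2 : 0 < η / (R - x.2) := div_pos hη0 (by linarith)
  have hMx : M x < 0 := by
    simp only [hΨ] at hΨx
    linarith
  have hx1pos : 0 < x.1 := by
    rcases hxA.1.1.eq_or_lt with h | h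
    · exfalso
      have e : x = (0, x.2) := Prod.ext h.symm rfl
      have := (hm₀ x.2 hxA.2.1).trans (hM.initial x.2 hxA.2.1)
      rw [← e] at this
      linarith
    · exact h
  have hx2pos : 0 < x.2 := by
    rcases hxA.2.1.eq_or_lt with h | h
    · exfalso
      have e : x = (x.1, 0) := Prod.ext rfl h.symm
      have := hM.boundary x.1 hxA.1.1
      rw [← e] at this
      linarith
    · exact h
  have hglob : ∀ y : ℝ × ℝ, 0 < y.1 → y.1 < T → 0 < y.2 → y.2 < R → Ψ x ≤ Ψ y := by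
    intro y a b c d
    by_cases hy : y ∈ (Icc 0 (T - κ) ×ˢ Icc 0 (R - κ) : Set (ℝ × ℝ))
    · exact hx hy
    · have hyK : y ∈ (Icc 0 T ×ˢ Icc 0 R : Set (ℝ × ℝ)) := ⟨⟨a.le, b.le⟩, ⟨c.le, d.le⟩⟩
      have hMy := neg_le_of_abs_le (hC y hyK)
      have p1 : 0 < η / (T - y.1) := div_pos hη0 (by linarith)
      have p2 : 0 < η / (R - y.2) := div_pos hη0 (by linarith)
      have : T - κ < y.1 ∨ R - κ < y.2 := by
        by_contra h
        push Not at h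
        exact hy ⟨⟨a.le, h.1⟩, ⟨c.le, h.2⟩⟩
      have hΨy : 0 < Ψ y := by
        simp only [hΨ]
        rcases this with h | h
        · have : C < η / (T - y.1) := by
            rw [lt_div_iff₀ (by linarith), hηκ]
            exact mul_lt_mul_of_pos_left (by linarith) hCpos
          linarith
        · have : C < η / (R - y.2) := by
            rw [lt_div_iff₀ (by linarith), hηκ]
            exact mul_lt_mul_of_pos_left (by linarith) hCpos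
          linarith
      linarith
  have hsub : (-(η / (T - x.1) ^ 2), -(η / (R - x.2) ^ 2)) ∈ subdiff M x := by
    apply mem_subdiff (g₁ := fun t => -(η / (T - t))) (g₂ := fun ρ => -(η / (R - ρ)))
    · exact (hasDerivAt_penalty η T x.1 (by linarith)).neg
    · exact (hasDerivAt_penalty η R x.2 (by linarith)).neg
    · filter_upwards [eventually_interior hx1pos (by linarith : x.1 < T) hx2pos
        (by linarith : x.2 < R)] with y hy
      have := hglob y hy.1 hy.2.1 hy.2.2.1 hy.2.2.2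
      simp only [hΨ] at this
      linarith
  have := hM.eq x.1 x.2 hx1pos hx2pos _ hsub
  have h1 : max (-(η / (R - x.2) ^ 2)) 0 = 0 := max_eq_right (by
    have : 0 ≤ η / (R - x.2) ^ 2 := by positivity
    linarith)
  simp only [h1, Real.zero_rpow hα.ne', zero_mul, add_zero] at this
  have h2 : 0 < η / (T - x.1) ^ 2 := by
    apply div_pos hη0
    have : 0 < T - x.1 := by linarith
    positivity
  linarith

/-! ### Comparison -/

lemma comparison {α : ℝ} (hα : 0 < α) {m₀ : ℝ → ℝ} (hm₀ : ∀ ρ, 0 ≤ ρ → 0 ≤ m₀ ρ)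
    {m M : ℝ × ℝ → ℝ} (hm : IsViscositySubsolution α m₀ m) (hM : IsViscositySupersolution α m₀ M)
    {t₀ ρ₀ : ℝ} (ht₀ : 0 ≤ t₀) (hρ₀ : 0 ≤ ρ₀) : m (t₀, ρ₀) ≤ M (t₀, ρ₀) := by
  by_contra hneg
  push Not at hneg
  have hM0 : ∀ y : ℝ × ℝ, 0 ≤ y.1 → 0 ≤ y.2 → 0 ≤ M y := fun y h1 h2 =>
    nonneg_of_super hα hm₀ hM h1 h2
  set T := t₀ + 1 with hT
  set R := ρ₀ + 1 with hR
  set D := m (t₀, ρ₀) - M (t₀, ρ₀) with hD
  have hD0 : 0 < D := by rw [hD]; linarith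
  set η := D / 4 with hη
  have hη0 : 0 < η := by positivity
  have hK : IsCompact (Icc 0 T ×ˢ Icc 0 R : Set (ℝ × ℝ)) := isCompact_Icc.prod isCompact_Icc
  have hmK : ContinuousOn m (Icc 0 T ×ˢ Icc 0 R) := hm.continuousOn.mono fun x hx => mem_quadrant hx
  have hMK : ContinuousOn M (Icc 0 T ×ˢ Icc 0 R) := hM.continuousOn.mono fun x hx => mem_quadrant hx
  obtain ⟨C₁, hC₁⟩ := hK.exists_bound_of_continuousOn hmK
  obtain ⟨C₂, hC₂⟩ := hK.exists_bound_of_continuousOn hMK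
  set C := max C₁ C₂ with hC
  have hmC : ∀ x ∈ (Icc 0 T ×ˢ Icc 0 R : Set (ℝ × ℝ)), |m x| ≤ C := fun x hx =>
    (hC₁ x hx).trans (le_max_left _ _)
  have hMC : ∀ x ∈ (Icc 0 T ×ˢ Icc 0 R : Set (ℝ × ℝ)), |M x| ≤ C := fun x hx =>
    (hC₂ x hx).trans (le_max_right _ _)
  have h0K : (t₀, ρ₀) ∈ (Icc 0 T ×ˢ Icc 0 R : Set (ℝ × ℝ)) :=
    ⟨⟨ht₀, by simp [hT]⟩, ⟨hρ₀, by simp [hR]⟩⟩
  have hDC : D ≤ 2 * C := by
    have a := (abs_le.1 (hmC _ h0K)).2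
    have b := (abs_le.1 (hMC _ h0K)).1
    rw [hD]; linarith
  have hCpos : 0 < C := by linarith
  -- uniform continuity on the compact rectangle
  obtain ⟨δ₁, hδ₁, H₁⟩ := Metric.uniformContinuousOn_iff.1
    (hK.uniformContinuousOn_of_continuous hmK) (D / 4) (by positivity)
  obtain ⟨δ₂, hδ₂, H₂⟩ := Metric.uniformContinuousOn_iff.1
    (hK.uniformContinuousOn_of_continuous hMK) (D / 4) (by positivity)
  set κ := η / (2 * C) with hκ
  have hκ0 : 0 < κ := by positivity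
  have hκ1 : κ ≤ 1 := by
    rw [hκ, div_le_one (by positivity)]
    linarith
  have hηκ : η = 2 * C * κ := by rw [hκ]; field_simp
  set r := min (min δ₁ δ₂) κ with hr
  have hr0 : 0 < r := lt_min (lt_min hδ₁ hδ₂) hκ0
  have hr1 : r ≤ δ₁ := (min_le_left _ _).trans (min_le_left _ _)
  have hr2 : r ≤ δ₂ := (min_le_left _ _).trans (min_le_right _ _)
  have hr3 : r ≤ κ := min_le_right _ _
  set ε := r ^ 2 / (8 * C) with hε
  have hε0 : 0 < ε := by positivity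
  have hεC : 4 * ε * C < r ^ 2 := by
    have : 4 * ε * C = r ^ 2 / 2 := by rw [hε]; field_simp; ring
    rw [this]
    have : 0 < r ^ 2 := by positivity
    linarith
  set Φ : (ℝ × ℝ) × (ℝ × ℝ) → ℝ := fun z => m z.1 - M z.2 -
    ((z.1.1 - z.2.1) ^ 2 / (2 * ε) + (z.1.2 - z.2.2) ^ 2 / (2 * ε)) - η / (T - z.1.1) -
    η / (R - z.1.2) with hΦ
  have hA : IsCompact (Icc 0 (T - κ) ×ˢ Icc 0 (R - κ) : Set (ℝ × ℝ)) :=
    isCompact_Icc.prod isCompact_Icc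
  have hAK : (Icc 0 (T - κ) ×ˢ Icc 0 (R - κ) : Set (ℝ × ℝ)) ⊆ Icc 0 T ×ˢ Icc 0 R := fun x hx =>
    ⟨⟨hx.1.1, by linarith [hx.1.2]⟩, ⟨hx.2.1, by linarith [hx.2.2]⟩⟩
  have h0A : (t₀, ρ₀) ∈ (Icc 0 (T - κ) ×ˢ Icc 0 (R - κ) : Set (ℝ × ℝ)) :=
    ⟨⟨ht₀, by simp only [hT]; linarith⟩, ⟨hρ₀, by simp only [hR]; linarith⟩⟩
  have hAA : IsCompact ((Icc 0 (T - κ) ×ˢ Icc 0 (R - κ)) ×ˢ (Icc 0 T ×ˢ Icc 0 R) :
      Set ((ℝ × ℝ) × (ℝ × ℝ))) := hA.prod hK
  have hΦc : ContinuousOn Φ ((Icc 0 (T - κ) ×ˢ Icc 0 (R - κ)) ×ˢ (Icc 0 T ×ˢ Icc 0 R)) := by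
    apply ContinuousOn.sub
    · apply ContinuousOn.sub
      · apply ContinuousOn.sub
        · apply ContinuousOn.sub
          · exact hmK.comp continuousOn_fst fun z hz => hAK hz.1
          · exact hMK.comp continuousOn_snd fun z hz => hz.2
        · exact Continuous.continuousOn (by fun_prop)
      · apply continuousOn_const.div (by fun_prop)
        intro z hz
        have := hz.1.1.2
        linarith
    · apply continuousOn_const.div (by fun_prop)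
      intro z hz
      have := hz.1.2.2
      linarith
  obtain ⟨⟨x, y⟩, ⟨hxA, hyK⟩, hmax⟩ := hAA.exists_isMaxOn ⟨((t₀, ρ₀), (t₀, ρ₀)), ⟨h0A, h0K⟩⟩ hΦc
  simp only at hxA hyK
  have hΦ0 : Φ ((t₀, ρ₀), (t₀, ρ₀)) = D / 2 := by
    simp only [hΦ, hT, hR, sub_self]
    rw [add_sub_cancel_left, add_sub_cancel_left, div_one, hη, hD]
    ring
  have hΦx : D / 2 ≤ Φ (x, y) := by
    rw [← hΦ0]
    exact hmax ⟨h0A, h0K⟩
  have hxK := hAK hxA
  have hx1 := hxA.1.2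
  have hx2 := hxA.2.2
  have hpos1 : 0 < η / (T - x.1) := div_pos hη0 (by linarith)
  have hpos2 : 0 < η / (R - x.2) := div_pos hη0 (by linarith)
  have hmx := (abs_le.1 (hmC x hxK)).2
  have hMy := (abs_le.1 (hMC y hyK)).1
  have hq1 : 0 ≤ (x.1 - y.1) ^ 2 / (2 * ε) := by positivity
  have hq2 : 0 ≤ (x.2 - y.2) ^ 2 / (2 * ε) := by positivity
  have hΦx' : D / 2 ≤ m x - M y - ((x.1 - y.1) ^ 2 / (2 * ε) + (x.2 - y.2) ^ 2 / (2 * ε)) -
    η / (T - x.1) - η / (R - x.2) := hΦx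
  have hdist : dist x y < r := by
    have e1 : (x.1 - y.1) ^ 2 < r ^ 2 := by
      have : (x.1 - y.1) ^ 2 / (2 * ε) < 2 * C := by linarith
      rw [div_lt_iff₀ (by positivity)] at this
      linarith
    have e2 : (x.2 - y.2) ^ 2 < r ^ 2 := by
      have : (x.2 - y.2) ^ 2 / (2 * ε) < 2 * C := by linarith
      rw [div_lt_iff₀ (by positivity)] at this
      linarith
    rw [Prod.dist_eq, max_lt_iff, Real.dist_eq, Real.dist_eq]
    exact ⟨abs_lt_of_sq_lt_sq e1 hr0.le, abs_lt_of_sq_lt_sq e2 hr0.le⟩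
  have hmxy := abs_lt.1 (H₁ x hxK y hyK (hdist.trans_le hr1))
  have hMxy := abs_lt.1 (H₂ x hxK y hyK (hdist.trans_le hr2))
  have hgapx : M x < m x := by linarith [hMxy.1, hMxy.2]
  have hgapy : M y < m y := by linarith [hmxy.1, hmxy.2]
  have hzero1 : ∀ z : ℝ × ℝ, 0 ≤ z.2 → M z < m z → z.1 ≠ 0 := by
    intro z hz hlt h
    have e : z = (0, z.2) := Prod.ext h rfl
    have := (hm.initial z.2 hz).trans (hM.initial z.2 hz)
    rw [← e] at this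
    linarith
  have hzero2 : ∀ z : ℝ × ℝ, 0 ≤ z.1 → M z < m z → z.2 ≠ 0 := by
    intro z hz hlt h
    have e : z = (z.1, 0) := Prod.ext rfl h
    have := (hm.boundary z.1 hz).trans (hM.boundary z.1 hz)
    rw [← e] at this
    linarith
  have hx1pos : 0 < x.1 := hxA.1.1.lt_of_ne' (hzero1 x hxA.2.1 hgapx)
  have hx2pos : 0 < x.2 := hxA.2.1.lt_of_ne' (hzero2 x hxA.1.1 hgapx)
  have hy1pos : 0 < y.1 := hyK.1.1.lt_of_ne' (hzero1 y hyK.2.1 hgapy)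
  have hy2pos : 0 < y.2 := hyK.2.1.lt_of_ne' (hzero2 y hyK.1.1 hgapy)
  rw [Prod.dist_eq, max_lt_iff, Real.dist_eq, Real.dist_eq] at hdist
  have hy1T : y.1 < T := by
    have := (abs_lt.1 hdist.1).1
    linarith
  have hy2R : y.2 < R := by
    have := (abs_lt.1 hdist.2).1
    linarith
  -- the maximum is global
  have hglob : ∀ z : ℝ × ℝ, 0 < z.1 → z.1 < T → 0 < z.2 → z.2 < R → Φ (z, y) ≤ Φ (x, y) := by
    intro z a b c d
    by_cases hz : z ∈ (Icc 0 (T - κ) ×ˢ Icc 0 (R - κ) : Set (ℝ × ℝ))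
    · exact hmax ⟨hz, hyK⟩
    · have hzK : z ∈ (Icc 0 T ×ˢ Icc 0 R : Set (ℝ × ℝ)) := ⟨⟨a.le, b.le⟩, ⟨c.le, d.le⟩⟩
      have hmz := (abs_le.1 (hmC z hzK)).2
      have p1 : 0 < η / (T - z.1) := div_pos hη0 (by linarith)
      have p2 : 0 < η / (R - z.2) := div_pos hη0 (by linarith)
      have q1 : 0 ≤ (z.1 - y.1) ^ 2 / (2 * ε) := by positivity
      have q2 : 0 ≤ (z.2 - y.2) ^ 2 / (2 * ε) := by positivity
      have : T - κ < z.1 ∨ R - κ < z.2 := by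
        by_contra h
        push Not at h
        exact hz ⟨⟨a.le, h.1⟩, ⟨c.le, h.2⟩⟩
      have hΦz : Φ (z, y) < 0 := by
        simp only [hΦ]
        rcases this with h | h
        · have : 2 * C < η / (T - z.1) := by
            rw [lt_div_iff₀ (by linarith), hηκ]
            exact mul_lt_mul_of_pos_left (by linarith) (by positivity)
          linarith
        · have : 2 * C < η / (R - z.2) := by
            rw [lt_div_iff₀ (by linarith), hηκ]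
            exact mul_lt_mul_of_pos_left (by linarith) (by positivity)
          linarith
      linarith
  have hsup : ((x.1 - y.1) / ε + η / (T - x.1) ^ 2, (x.2 - y.2) / ε + η / (R - x.2) ^ 2) ∈
      superdiff m x := by
    apply mem_superdiff (g₁ := fun t => (t - y.1) ^ 2 / (2 * ε) + η / (T - t))
      (g₂ := fun ρ => (ρ - y.2) ^ 2 / (2 * ε) + η / (R - ρ))
    · refine HasDerivAt.add ?_ (hasDerivAt_penalty η T x.1 (by linarith))
      have := (((hasDerivAt_id x.1).sub_const y.1).pow 2).div_const (2 * ε)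
      refine this.congr_deriv ?_
      simp only [id]
      field_simp
      ring
    · refine HasDerivAt.add ?_ (hasDerivAt_penalty η R x.2 (by linarith))
      have := (((hasDerivAt_id x.2).sub_const y.2).pow 2).div_const (2 * ε)
      refine this.congr_deriv ?_
      simp only [id]
      field_simp
      ring
    · filter_upwards [eventually_interior hx1pos (by linarith : x.1 < T) hx2pos
        (by linarith : x.2 < R)] with z hz
      have := hglob z hz.1 hz.2.1 hz.2.2.1 hz.2.2.2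
      simp only [hΦ] at this
      linarith
  have hsub : ((x.1 - y.1) / ε, (x.2 - y.2) / ε) ∈ subdiff M y := by
    apply mem_subdiff (g₁ := fun s => -((x.1 - s) ^ 2 / (2 * ε)))
      (g₂ := fun σ => -((x.2 - σ) ^ 2 / (2 * ε)))
    · have := ((((hasDerivAt_id y.1).const_sub x.1).pow 2).div_const (2 * ε)).neg
      refine this.congr_deriv ?_
      simp only [id]
      field_simp
      ring
    · have := ((((hasDerivAt_id y.2).const_sub x.2).pow 2).div_const (2 * ε)).neg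
      refine this.congr_deriv ?_
      simp only [id]
      field_simp
      ring
    · filter_upwards [eventually_interior hy1pos hy1T hy2pos hy2R] with z hz
      have : Φ (x, z) ≤ Φ (x, y) := hmax ⟨hxA, ⟨⟨hz.1.le, hz.2.1.le⟩, ⟨hz.2.2.1.le, hz.2.2.2.le⟩⟩⟩
      simp only [hΦ] at this
      linarith
  have i1 := hm.eq x.1 x.2 hx1pos hx2pos _ hsup
  have i2 := hM.eq y.1 y.2 hy1pos hy2pos _ hsub
  simp only [Prod.mk.eta] at i1 i2
  have hmono : (max ((x.2 - y.2) / ε) 0) ^ α ≤ (max ((x.2 - y.2) / ε + η / (R - x.2) ^ 2) 0) ^ α := by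
    apply Real.rpow_le_rpow (le_max_right _ _) _ hα.le
    apply max_le_max _ le_rfl
    have : 0 ≤ η / (R - x.2) ^ 2 := by positivity
    linarith
  have hMy0 : 0 ≤ M y := hM0 y hyK.1.1 hyK.2.1
  have hmM : M y ≤ m x := by linarith
  have hprod : (max ((x.2 - y.2) / ε) 0) ^ α * M y ≤
      (max ((x.2 - y.2) / ε + η / (R - x.2) ^ 2) 0) ^ α * m x :=
    mul_le_mul hmono hmM hMy0 (Real.rpow_nonneg (le_max_right _ _) _)
  have hfin : 0 < η / (T - x.1) ^ 2 := by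
    apply div_pos hη0
    have : 0 < T - x.1 := by linarith
    positivity
  linarith

/-- **Comparison principle and uniqueness for the mass equation, without uniform continuity.**
Let `0 < α < 1` and let `m₀` be continuous and nondecreasing on `[0, ∞)` with `m₀ 0 = 0`.  Every
(continuous) viscosity subsolution lies below every (continuous) viscosity supersolution with the
same datum; in particular the mass equation has at most one viscosity solution. -/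
theorem result (α : ℝ) (hα : 0 < α) (hα1 : α < 1) (m₀ : ℝ → ℝ) (hcont : ContinuousOn m₀ (Ici 0))
    (hmono : MonotoneOn m₀ (Ici 0)) (hzero : m₀ 0 = 0) :
    (∀ m M : ℝ × ℝ → ℝ, IsViscositySubsolution α m₀ m → IsViscositySupersolution α m₀ M →
      ∀ t ρ, 0 ≤ t → 0 ≤ ρ → m (t, ρ) ≤ M (t, ρ)) ∧
    (∀ m M : ℝ × ℝ → ℝ, IsViscositySolution α m₀ m → IsViscositySolution α m₀ M →
      ∀ t ρ, 0 ≤ t → 0 ≤ ρ → m (t, ρ) = M (t, ρ)) := by
  have _ := hα1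
  have _ := hcont
  have hm₀ : ∀ ρ, 0 ≤ ρ → 0 ≤ m₀ ρ := fun ρ hρ => by
    rw [← hzero]
    exact hmono (mem_Ici.2 le_rfl) hρ hρ
  refine ⟨fun m M hm hM t ρ ht hρ => comparison hα hm₀ hm hM ht hρ, fun m M hm hM t ρ ht hρ => ?_⟩
  exact le_antisymm (comparison hα hm₀ hm.1 hM.2 ht hρ) (comparison hα hm₀ hM.1 hm.2 ht hρ)

end Pool.Agent.Results.MP_fe8c84_an.Comparison
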